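import Pool.Agent.Lib.SPL.Final

namespace Pool.Agent.Results.MP_d302ba_co.AlmostAllSplit

/-- labelled graphs on `n` vertices with `m` edges and no induced 4-cycle -/
def fam (n m : ℕ) : Set (SimpleGraph (Fin n)) :=
  {G | G.edgeSet.ncard = m ∧ ¬ (SimpleGraph.cycleGraph 4).IsIndContained G}

/-- the vertex set is partitioned into a clique and an independent set -/
def Split {n : ℕ} (G : SimpleGraph (Fin n)) : Prop :=
  ∃ S : Set (Fin n), G.IsClique S ∧ G.IsIndepSet Sᶜ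

open Pool.Agent.Lib.SPL in
theorem result : ∃ C : ℝ, ∀ c : ℝ, 0 < c → ∃ c' : ℝ, 0 < c' ∧ ∃ n₀ : ℕ, ∀ n m : ℕ, n₀ ≤ n →
    C * (n : ℝ) ^ ((4 : ℝ) / 3) * (Real.log n) ^ ((10 : ℝ) / 3) ≤ (m : ℝ) →
    c * (n : ℝ) ^ 2 ≤ ((n.choose 2 : ℕ) : ℝ) - (m : ℝ) →
    (fam n m).Nonempty ∧
      (({G ∈ fam n m | ¬ Split G}.ncard : ℕ) : ℝ) ≤
        Real.exp (-(c' * (m : ℝ) / (n : ℝ))) * (((fam n m).ncard : ℕ) : ℝ) := by
  have e : ∀ n m : ℕ, fam n m = {G : Gr (Fin n) | ed G = m ∧ NoC4 G} := fun n m => by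
    ext G
    simp only [fam, Set.mem_ofPred_eq, noC4_iff, ed]
  simp only [e]
  exact hand final_main final_all

end Pool.Agent.Results.MP_d302ba_co.AlmostAllSplit
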