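import Pool.Agent.Lib.MP_d302ba_co.Nonempty

open Filter Asymptotics

namespace Pool.Agent.Results.MP_d302ba_co.NotSplit

/-- labelled graphs on `n` vertices with `m` edges and no induced 4-cycle -/
def fam (n m : ℕ) : Set (SimpleGraph (Fin n)) :=
  {G | G.edgeSet.ncard = m ∧ ¬ (SimpleGraph.cycleGraph 4).IsIndContained G}

/-- the vertex set is partitioned into a clique and an independent set -/
def Split {n : ℕ} (G : SimpleGraph (Fin n)) : Prop :=
  ∃ S : Set (Fin n), G.IsClique S ∧ G.IsIndepSet Sᶜ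

open Pool.Agent.Lib.MP_d302ba_co in
theorem result : ∃ m : ℕ → ℕ,
    Tendsto (fun n : ℕ => (m n : ℝ) / ((n : ℝ) ^ ((4 : ℝ) / 3) * (Real.log n) ^ ((1 : ℝ) / 3)))
      atTop atTop ∧
    (∃ c : ℝ, 0 < c ∧ ∀ᶠ n : ℕ in atTop, c * (n : ℝ) ^ 2 ≤ ((n.choose 2 : ℕ) : ℝ) - (m n : ℝ)) ∧
    ∃ᶠ n : ℕ in atTop, (fam n (m n)).Nonempty ∧
      2 * {G ∈ fam n (m n) | Split G}.ncard ≤ (fam n (m n)).ncard := by
  refine ⟨mm, ?_, ?_, ?_⟩
  · rw [tendsto_atTop]
    intro b
    have h := (isLittleO_iff.1 mm_littleO) (c := 1 / (|b| + 1)) (by positivity)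
    filter_upwards [h, eventually_ge_atTop 2] with n hn h2
    have h2' : (2 : ℝ) ≤ n := by exact_mod_cast h2
    have hl : 0 < Real.log n := Real.log_pos (by linarith)
    have hpos : 0 < (n : ℝ) ^ ((4 : ℝ) / 3) * (Real.log n) ^ ((1 : ℝ) / 3) := by positivity
    rw [Real.norm_of_nonneg hpos.le, Real.norm_of_nonneg (by positivity), one_div_mul_eq_div,
      le_div_iff₀ (by positivity)] at hn
    rw [le_div_iff₀ hpos]
    have := le_abs_self b
    nlinarith
  · obtain ⟨c, hc, h⟩ := mm_upper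
    exact ⟨c, hc, h.mono (fun n hn => by linarith)⟩
  · refine nn_tendsto.frequently (Eventually.frequently ?_)
    obtain ⟨c, hc, hup⟩ := mm_upper
    filter_upwards [eventually_ge_atTop 11, nn_tendsto.eventually hup] with j hj hle
    have h1 := two_split_le_nn j hj
    have hsub : {G : SimpleGraph (Fin (nn j)) | G.edgeSet.ncard = mm (nn j) ∧ NoC4 G} ⊆
        fam (nn j) (mm (nn j)) := by
      rintro G ⟨e, hG⟩
      refine ⟨e, ?_⟩
      rintro ⟨f⟩
      have a : ∀ x y : Fin 4, G.Adj (f x) (f y) ↔ (SimpleGraph.cycleGraph 4).Adj x y :=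
        fun x y => f.map_adj_iff
      have := hG (f 0) (f 1) (f 2) (f 3) (f.injective.ne (by decide)) (f.injective.ne (by decide))
        ((a _ _).2 (by decide)) ((a _ _).2 (by decide)) ((a _ _).2 (by decide))
        ((a _ _).2 (by decide))
      rw [a, a] at this
      revert this
      decide
    have h2 : {G ∈ fam (nn j) (mm (nn j)) | Split G}.ncard ≤
        {G : SimpleGraph (Fin (nn j)) | G.edgeSet.ncard = mm (nn j) ∧ IsSplit G}.ncard := by
      refine Set.ncard_le_ncard ?_ (Set.toFinite _)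
      rintro G ⟨⟨e, -⟩, S, s1, s2⟩
      refine ⟨e, S, fun u hu v hv huv => s1 hu hv huv, fun u hu v hv hadj => ?_⟩
      exact s2 hu hv hadj.ne hadj
    have h3 := Set.ncard_le_ncard hsub (Set.toFinite _)
    refine ⟨?_, by omega⟩
    have h4 : (mm (nn j) : ℝ) ≤ (((nn j).choose 2 : ℕ) : ℝ) := by
      have : 0 ≤ c * (nn j : ℝ) ^ 2 := by positivity
      linarith
    obtain ⟨G, hG⟩ := nonempty_noC4 (nn j) (mm (nn j)) (by exact_mod_cast h4)
    exact ⟨G, hsub hG⟩

end Pool.Agent.Results.MP_d302ba_co.NotSplit
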